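import Pool.Agent.Recon.Limits
import Pool.Agent.Recon.Lower

open MeasureTheory Filter

namespace Pool.Agent.Results.MP_78cba5_pr.WeakThreshold

open Pool.Agent.Recon

/-- `U` is reconstructible from the distances revealed by the graph `G` on the labelled point set
`x : Fin n → ℝ^d`: every placement `y` of the points that has the same length as `x` on every
revealed pair has the same length as `x` on every pair of points of `U`. -/
def Reconstructible {d n : ℕ} (x : Fin n → EuclideanSpace ℝ (Fin d)) (G : SimpleGraph (Fin n))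
    (U : Finset (Fin n)) : Prop :=
  ∀ y : Fin n → EuclideanSpace ℝ (Fin d),
    (∀ a b, G.Adj a b → dist (y a) (y b) = dist (x a) (x b)) →
      ∀ u ∈ U, ∀ w ∈ U, dist (y u) (y w) = dist (x u) (x w)

lemma recon_reachable {d n : ℕ} {x : Fin n → EuclideanSpace ℝ (Fin d)}
    (hx : Function.Injective x) {G : SimpleGraph (Fin n)} {U : Finset (Fin n)}
    (hU : Reconstructible x G U) : ∀ u ∈ U, ∀ w ∈ U, G.Reachable u w := by
  classical
  intro u hu w hw
  by_contra hnr
  have hwu : ¬ G.Reachable w u := fun h => hnr h.symm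
  have h := hU (fun v => if G.Reachable w v then x v + (x u - x w) else x v) (by
    intro a b hab
    by_cases ha : G.Reachable w a
    · have hb : G.Reachable w b := ha.trans hab.reachable
      simp [ha, hb]
    · have hb : ¬ G.Reachable w b := fun hb => ha (hb.trans hab.symm.reachable)
      simp [ha, hb]) u hu w hw
  have hww : G.Reachable w w := SimpleGraph.Reachable.refl w
  simp only [hwu, if_false, hww, if_true] at h
  have h2 : x w + (x u - x w) = x u := by abel
  rw [h2, dist_self] at h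
  have h3 : u = w := hx (dist_eq_zero.mp h.symm)
  exact hnr (h3 ▸ SimpleGraph.Reachable.refl u)

/-- **`1/n` is a weak threshold for linear-size reconstruction in every dimension.**
For every `d` there are constants `0 < c ≤ C` and `δ > 0` such that, for the binomial random graph
`G(n,p)` of revealed pairs and uniformly over all `n`-point sets in `ℝ^d`:
* if `p ≤ c/n` then whp every reconstructible set has size `o(n)`;
* if `p ≥ C/n` then whp some reconstructible set has size at least `δ n`. -/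
theorem result (d : ℕ) : ∃ c C δ : ℝ, 0 < c ∧ c ≤ C ∧ 0 < δ ∧
    (∀ ε : ℝ, 0 < ε → ∀ η : ℝ, 0 < η → ∃ n₀ : ℕ, ∀ n : ℕ, n₀ ≤ n → ∀ p : unitInterval,
      (p : ℝ) ≤ c / n → ∀ x : Fin n → EuclideanSpace ℝ (Fin d), Function.Injective x →
        (SimpleGraph.binomialRandom (Fin n) p).real
          {G | ∃ U : Finset (Fin n), Reconstructible x G U ∧ ε * n ≤ U.card} ≤ η) ∧
    (∀ η : ℝ, 0 < η → ∃ n₀ : ℕ, ∀ n : ℕ, n₀ ≤ n → ∀ p : unitInterval,
      C / n ≤ (p : ℝ) → ∀ x : Fin n → EuclideanSpace ℝ (Fin d), Function.Injective x →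
        1 - η ≤ (SimpleGraph.binomialRandom (Fin n) p).real
          {G | ∃ U : Finset (Fin n), Reconstructible x G U ∧ δ * n ≤ U.card}) := by
  classical
  obtain ⟨C, hC1, hC⟩ := upper_limit d
  refine ⟨1 / 2, C, 1 / (2 * 8 ^ d), by norm_num, by linarith, by positivity, ?_, ?_⟩
  · -- lower side
    intro ε hε η hη
    obtain ⟨n₀, hn₀⟩ := exists_nat_gt (2 / (ε ^ 2 * η))
    refine ⟨n₀ + 1, ?_⟩
    intro n hn p hp x hx
    have hnpos : 0 < n := by omega
    have hn0 : (0 : ℝ) < n := by exact_mod_cast hnpos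
    have hp0 : (0 : ℝ) ≤ p := p.2.1
    have hp1 : (p : ℝ) ≤ 1 := p.2.2
    rw [binomial_eq]
    have hb := reach_bound (V := Fin n) hp0 hp1 (by
      rw [Fintype.card_fin]
      calc (n : ℝ) * p ≤ n * (1 / 2 / n) := mul_le_mul_of_nonneg_left hp hn0.le
        _ = 1 / 2 := by field_simp)
      (fun ω => gr ω ∈ {G | ∃ U : Finset (Fin n), Reconstructible x G U ∧ ε * n ≤ U.card})
      (ε * n) (by positivity) (by
        rintro ω ⟨U, hU1, hU2⟩
        exact ⟨U, hU2, recon_reachable hx hU1⟩)
    refine le_trans hb ?_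
    rw [Fintype.card_fin]
    have h1 : 2 * (n : ℝ) / (ε * n) ^ 2 = 2 / (ε ^ 2 * n) := by
      field_simp
    rw [h1, div_le_iff₀ (by positivity)]
    rw [div_lt_iff₀ (by positivity)] at hn₀
    have h2 : (n₀ : ℝ) ≤ n := by
      have : n₀ ≤ n := by omega
      exact_mod_cast this
    have h3 : (n₀ : ℝ) * (ε ^ 2 * η) ≤ n * (ε ^ 2 * η) :=
      mul_le_mul_of_nonneg_right h2 (by positivity)
    calc (2 : ℝ) ≤ n * (ε ^ 2 * η) := by linarith
      _ = η * (ε ^ 2 * n) := by ring
  · -- upper side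
    intro η hη
    obtain ⟨n₀, hn₀⟩ := hC η hη
    refine ⟨n₀ + 1, ?_⟩
    intro n hn p hp x hx
    have hnpos : 0 < n := by omega
    have hn0 : (0 : ℝ) < n := by exact_mod_cast hnpos
    obtain ⟨hq1, hq2⟩ := hn₀ n (by omega) x
    have hp1 : (p : ℝ) ≤ 1 := p.2.2
    have hq0 : 0 ≤ C / n := by positivity
    rw [binomial_eq]
    have hmono := Pr_anti (α := Sym2 (Fin n)) hq0 hp hp1 (fun ω => ¬ Good x ω) (by
      intro ω ω' hle hnot hgood
      apply hnot
      obtain ⟨K, hK1, hK2⟩ := hgood
      refine ⟨K, hK1, fun y hy => hK2 y ?_⟩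
      intro u v huv
      exact hy u v ⟨huv.1, hle _ huv.2⟩)
    have h1 : Pr (bw (p : ℝ)) (fun ω : Sym2 (Fin n) → Bool => ¬ Good x ω) ≤ η :=
      le_trans hmono hq2
    rw [Pr_not (bw_sum _)] at h1
    have h2 : Pr (bw (p : ℝ)) (fun ω : Sym2 (Fin n) → Bool => Good x ω)
        ≤ Pr (bw (p : ℝ)) (fun ω : Sym2 (Fin n) → Bool => gr ω ∈
          {G | ∃ U : Finset (Fin n), Reconstructible x G U ∧
            (1 / (2 * 8 ^ d) : ℝ) * n ≤ U.card}) := by
      apply Pr_mono (bw_nonneg (by linarith [hq0]) hp1)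
      rintro ω ⟨K, hK1, hK2⟩
      refine ⟨K, ?_, ?_⟩
      · intro y hy
        exact hK2 y (fun u v huv => hy u v huv)
      · rw [Fintype.card_fin] at hK1
        have : (n : ℝ) ≤ 2 * 8 ^ d * K.card := by exact_mod_cast hK1
        rw [one_div, inv_mul_le_iff₀ (by positivity)]
        exact this
    linarith

end Pool.Agent.Results.MP_78cba5_pr.WeakThreshold
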